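import Mathlib
import Pool.Agent.Helper69.WS.St

/-!
# Project WP (MP_90c2d5_nt, Wall-Sun-Sun primes; owner helper93): the bound for every single prime

Theorem: for every prime `p`, at most `C (x^(1/2) p^(1/3) + x p^(-1/6))` real quadratic fields with
fundamental unit at most `x` have `p` as a Wall-Sun-Sun prime. Stepanov's method for the differences of
the Lucas quotients.

Notation of the docstrings: `m = (p-1)/2`, `Del = X^2 - 4n`, `Delh = (X+h)^2 - 4n`.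
-/

set_option autoImplicit false

namespace Pool.Agent.Helper93.WP

open Polynomial Pool.Agent.Helper69.WS

/-- `X^2 - 4n` -/
noncomputable def del {k : Type*} [Field k] (n : k) : k[X] := X ^ 2 - C (4 * n)

/-- `(X + h)^2 - 4n` -/
noncomputable def delh {k : Type*} [Field k] (n h : k) : k[X] := (X + C h) ^ 2 - C (4 * n)

/-- `D' = Delh^m - Del^m`, `m = (p-1)/2` -/
def IsD {k : Type*} [Field k] (p : ℕ) (n h : k) (D : k[X]) : Prop :=
  derivative D = delh n h ^ ((p - 1) / 2) - del n ^ ((p - 1) / 2)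

/-- the auxiliary polynomial `∑_(i<a, j<b, l<c) lam i j l X^i D^j X^(p l)` -/
noncomputable def aux {k : Type*} [Field k] (p : ℕ) (D : k[X]) (a b c : ℕ)
    (lam : ℕ → ℕ → ℕ → k) : k[X] :=
  ∑ i ∈ Finset.range a, ∑ j ∈ Finset.range b, ∑ l ∈ Finset.range c,
    C (lam i j l) * X ^ i * D ^ j * X ^ (p * l)

/-- ALG (no hypotheses, about 200 lines). The difference polynomial.

Over `ℤ[X]` (`n` fixed): `V_0 = 2`, `V_1 = X`, `V_(k+2) = X V_(k+1) - n V_k`; `U_0 = 0`, `U_1 = 1`, the same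
recursion. `eval t V_k = lucV t n k`. (i) `V_k' = k U_k` (two step induction; use
`2 V_(k+1) = X V_k + (X^2-4n) U_k`, `2 U_(k+1) = X U_k + V_k` and `(X^2-4n) U_k' = k V_k - X U_k` proved together; or
the argument used in Pool/Agent/Helper36/WS/M_CNT.lean for StLIF, which already needs `V_k' = k U_k`: reuse it).
(ii) modulo `p`: `V_p = X^p`, `U_p = Del^m`. Proof: the matrix `M = !![X, -n; 1, 0]` over `(ZMod p)[X]`, `S = 2M - X`,
`S^2 = Del`, `M^k = U_k M - n U_(k-1)` (so entry `(1,0)` of `M^k` is `U_k`, trace is `V_k`);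
`2^p M^p = (X + S)^p = X^p + S^p = X^p + Del^m S` (`add_pow_char_of_commute`, `Matrix.charP`), `2^p = 2`: entry `(1,0)`:
`2 U_p = 2 Del^m`; trace (`tr S = 0`): `2 V_p = 2 X^p`. (Or work in `AdjoinRoot (Y^2 - Del)`.)
(iii) `V_p` is monic of degree `p`. So `W = V_p(X+h) - V_p(X) - h` is `0` modulo `p`
(`(X+h)^p - X^p - h = h^p - h = 0`), `W = p D0` with `D0 ∈ ℤ[X]`, `deg D0 ≤ p-1`,
`p D0' = W' = p (U_p(X+h) - U_p(X))`. `D` is `D0` modulo `p`. If `V_p(t) ≡ t + p v` and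
`V_p(t+h) ≡ t + h + p v` modulo `p²` then `p D0(t) = V_p(t+h) - V_p(t) - h ≡ 0` modulo `p²`, `p ∣ D0(t)`. -/
def StALG : Prop :=
  ∀ (p : ℕ) [Fact p.Prime], p ≠ 2 → ∀ n h : ℤ, ∃ D : (ZMod p)[X],
    D.natDegree ≤ p - 1 ∧ IsD p (n : ZMod p) (h : ZMod p) D ∧
    ∀ t v : ℤ, lucV t n p ≡ t + p * v [ZMOD (p : ℤ) ^ 2] →
      lucV (t + h) n p ≡ t + h + p * v [ZMOD (p : ℤ) ^ 2] → D.eval (t : ZMod p) = 0

/-- ZE (no hypotheses, about 250 lines). The zero estimate at a root `tau` of `Del`.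

`x := X - tau`, `m = (p-1)/2`, `K := (2 al + 1)(be + 1) ≤ m + 1`, `A := Del^m`, `B := Delh^m`; `x^m ∣ A` as
`Del(tau) = 0`. Let `Th f := Delh * B * f'`, `S := Delh * B`, `K2 := Delh * B^2 = Delh^p`. Exact identities:
`S' = (X+h) B` (`Delh' = 2 (X+h)`, `Delh B' = m Delh' B = -(X+h) B` as `2m = p-1 = -1`), `Th (X+h) = S`,
`Th S = K2 (X+h)`, `Th D = K2 - Delh B A`. Let `kap : k`, `kap^2 = Delh(tau)^p` (`≠ 0`): `K2 ≡ kap^2` modulo `x^p`
(`Delh^p = (Delh(tau) + x(..))^p`). `U := (X + h + S/kap)/2`: `U^2 - (X+h) U + n ≡ 0`, `Th U ≡ kap U` modulo `x^p`, `U(tau) ≠ 0`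
(from the first one and `n ≠ 0`); `Th D ≡ kap^2` modulo `x^m`.
Formal side: `R = k[u][Y]` (or `MvPolynomial`, or functions `Fin (2al+1) × Fin (be+1) → k`), `W` = the
polynomials with `deg_u ≤ 2al`, `deg_Y ≤ be`, dimension `K`; the derivation `th u = kap u`, `th Y = kap^2` maps `W` to `W`
(`th (u^i Y^j) = i kap u^i Y^j + j kap^2 u^i Y^(j-1)`); `pi : u ↦ U, Y ↦ D`. For `g ∈ R`:
`Th (pi g) ≡ pi (th g)` modulo `x^m`; `f ≡ f'` modulo `x^(r+1)` implies `Th f ≡ Th f'` modulo `x^r`; so by induction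
`Th^i (pi g) ≡ pi (th^i g)` modulo `x^(m+1-i)`, `1 ≤ i ≤ m`.
Suppose `x^K ∣ f := ∑ c i j X^i D^j`. Put `g := ∑ c i j (u^2 - h u + n)^i u^(al-i) Y^j ∈ W`; `g ≠ 0` (for fixed `j` the
summand with the largest `i` has `u`-degree `al + i` and leading coefficient `c i j`), and
`pi g ≡ U^al f` modulo `x^p` (`U^2 - h U + n ≡ X U`), so `x^K ∣ pi g`. For `i < K`: `x^(K-i) ∣ Th^i (pi g)`, so `x ∣ pi (th^i g)`:
`th^i g` vanishes at the point `(U(tau), D(tau))`. The span `G` of `th^i g`, `i < K`, is `th`-stable (Cayley-Hamilton or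
dimension: `dim W = K`; or take the span of all `th^i g` and show by `dim ≤ K` that it is spanned by `i < K`), nonzero,
and lies in the kernel of the evaluation `W → k` at `(U(tau), D(tau))`. `k` is algebraically closed: `G` contains an
eigenvector `e` of `th` (`Module.End.exists_eigenvalue`). Eigenvectors in `W` are `c u^j`: look at the highest power `Y^b` in `e`
(coefficient of `u^j Y^b`: eigenvalue `= j kap`, so only one `j`, as `2 al < p`), then at `u^j Y^(b-1)`: `b kap^2 c = 0`, so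
`b = 0` (`b ≤ be < p`). But `c U(tau)^j ≠ 0`. Contradiction.
(Variant without eigenvectors: the operator `∏_(i ≠ j) (th - i kap)^(be+1) (th - j kap)^b` maps `g` to `c u^j`.) -/
def StZE : Prop :=
  ∀ (k : Type) [Field k] [IsAlgClosed k] (p : ℕ) [Fact p.Prime] [CharP k p], p ≠ 2 →
    ∀ (n h tau : k) (D : k[X]) (al be : ℕ) (c : ℕ → ℕ → k),
    n ≠ 0 → tau ^ 2 = 4 * n → (tau + h) ^ 2 ≠ 4 * n → IsD p n h D →
    (2 * al + 1) * (be + 1) ≤ (p - 1) / 2 + 1 →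
    (∃ i ≤ al, ∃ j ≤ be, c i j ≠ 0) →
    ¬ (X - C tau) ^ ((2 * al + 1) * (be + 1)) ∣
      ∑ i ∈ Finset.range (al + 1), ∑ j ∈ Finset.range (be + 1), C (c i j) * X ^ i * D ^ j

/-- NV (hZE : StZE), about 120 lines. The auxiliary polynomial is not zero.

`k` algebraically closed: `n = s^2`, `tau = 2s` or `-2s`; `(tau+h)^2 - 4n = h (h + 2 tau)`, and `h = -4s`, `h = 4s` are not both
true (`8 s ≠ 0`), so one of the two `tau` satisfies the hypotheses of ZE. `x = X - tau`, `X^p = x^p + tau^p`, so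
`X^(p l) = ∑_q choose(l,q) tau^(p(l-q)) x^(p q)` and `aux = ∑_(q<c) x^(p q) G_q`,
`G_q = ∑_(i<a,j<b) lam' i j q X^i D^j`, `lam' i j q = ∑_(q≤l<c) choose(l,q) tau^(p(l-q)) lam i j l`. Some `lam' i j q ≠ 0` (take `i, j` with
`lam i j l ≠ 0` for some `l`, the largest such `l`, `q = l`). Let `q` be minimal with some `lam' i j q ≠ 0`. If `aux = 0` then
`G_q = - ∑_(q'>q) x^(p (q'-q)) G_q'` is divisible by `x^p`, against ZE (`al = a-1`, `be = b-1`,
`(2a-1) b ≤ 2ab ≤ (p+1)/2 = m+1 ≤ p`). -/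
def StNV : Prop :=
  ∀ (k : Type) [Field k] [IsAlgClosed k] (p : ℕ) [Fact p.Prime] [CharP k p], p ≠ 2 →
    ∀ (n h : k) (D : k[X]) (a b c : ℕ) (lam : ℕ → ℕ → ℕ → k),
    n ≠ 0 → h ≠ 0 → IsD p n h D → 1 ≤ a → 1 ≤ b → 4 * a * b ≤ p + 1 →
    (∃ i < a, ∃ j < b, ∃ l < c, lam i j l ≠ 0) → aux p D a b c lam ≠ 0

/-- LIN (no hypotheses, about 250 lines). The linear system.

`P := Del * Delh`, `A := Del^m`, `B := Delh^m`. Ring `R = MvPolynomial (Fin 4) k`, variables `T = X 0`, `Y`, `a`, `b`; derivation `de`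
(`MvPolynomial.mkDerivation`): `de T = P(T)`, `de Y = (b - a) P(T)`, `de a = -T Delh(T) a`, `de b = -(T+h) Del(T) b`.
`E : R → k[X]`, `T, Y, a, b ↦ X, D, A, B`: `E (de f) = P * derivative (E f)` (both sides are derivations
along `E`; check on the variables: `A' = m 2 X Del^(m-1)`, so `P A' = 2m X Delh A = -X Delh A`, as `2m = p-1 = -1` in `k`; the same for
`B`). `G : R → k[X]`, `T, Y, a, b ↦ X, 0, s1, s2`. If `D(t) = 0`, `A(t) = s1`, `B(t) = s2` then `(E f)(t) = (G f)(t)`.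
`degreeOf 0 (de f) ≤ degreeOf 0 f + 4`, `natDegree (G f) ≤ degreeOf 0 f`. With `f_l = ∑_(i<a,j<b) lam i j l T^i Y^j`:
`aux = ∑_l X^(p l) E f_l` and, as `(X^(p l))' = 0`, `(P d/dX)^r aux = ∑_l X^(p l) E (de^r f_l)`; its value at `t` (`t^p = t`) is the
value at `t` of `P_r := ∑_(l<c) X^l G (de^r f_l)`, a polynomial of degree `≤ (a-1) + (c-1) + 4r < a + c + 4M`, linear in `lam`.
The map `lam ↦ (coefficients of P_r, r < M)` from `k^(a b c)` to `k^(M (a + c + 4M))` has a nonzero kernel vector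
(`LinearMap.exists_ne_zero_of_...` / `finrank` comparison). For this `lam`, `((P d/dX)^r aux)(t) = 0` for all `r < M`; `P(t) ≠ 0` and
`M ≤ p` give `(X - t)^M ∣ aux`: if `aux = (X-t)^e f`, `f(t) ≠ 0`, `1 ≤ e < M ≤ p`, then `P (..)' = (X-t)^(e-1) f1`, `f1(t) ≠ 0`, so
`((P d/dX)^e aux)(t) ≠ 0`. (For `aux = 0` trivial.) -/
def StLIN : Prop :=
  ∀ (k : Type) [Field k] (p : ℕ) [Fact p.Prime] [CharP k p], p ≠ 2 →
    ∀ (n h s1 s2 : k) (D : k[X]) (a b c M : ℕ),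
    IsD p n h D → M ≤ p → M * (a + c + 4 * M) < a * b * c →
    ∃ lam : ℕ → ℕ → ℕ → k, (∃ i < a, ∃ j < b, ∃ l < c, lam i j l ≠ 0) ∧
      ∀ t : k, D.eval t = 0 → (del n ^ ((p - 1) / 2)).eval t = s1 →
        (delh n h ^ ((p - 1) / 2)).eval t = s2 → t ^ p = t → (del n * delh n h).eval t ≠ 0 →
        (X - C t) ^ M ∣ aux p D a b c lam

/-- BND (hNV : StNV) (hLIN : StLIN), about 150 lines. The number of zeros of a difference polynomial.

`k` = algebraic closure of `ZMod p`, everything mapped to `k` (`IsD` is preserved by `Polynomial.map`). For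
`t ∈ ZMod p` with `Del(t) Delh(t) ≠ 0` the values `Del(t)^m`, `Delh(t)^m` are `±1` (`ZMod.pow_card_sub_one_eq_one`), so these `t` with
`D(t) = 0` are in 4 classes `S(s1,s2)`; at most 4 further `t`. `b` := the largest integer with `16 b^3 ≤ p + 1`; if `b < 2` then
`p < 127` and the trivial bound `p ≤ 6 p^(2/3)` is enough. `a = 2b^2 + b + 1 ≤ 4 b^2` (`4ab ≤ 16 b^3 ≤ p+1`), `c = b`, `M = b^2/2` (integer part):
`M (a + b + 4M) ≤ (b^2/2)(a + b + 2b^2) < a b^2`. By LIN and NV: `aux ≠ 0` and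
`∏_(t ∈ S) (X-t)^M ∣ aux` (`Finset.prod_dvd_of_coprime`), so `M |S| ≤ deg aux ≤ (a-1) + (b-1)(p-1) + (b-1)p ≤ 2 b p`, `M ≥ b^2/4`,
`|S| ≤ 8 p/b`, `b ≥ p^(1/3)/8` (`16 (b+1)^3 > p + 1`, `b + 1 ≤ 3b/2`). -/
def StBND : Prop :=
  ∃ C : ℝ, 0 < C ∧ ∀ (p : ℕ) [Fact p.Prime], p ≠ 2 → ∀ (n h : ZMod p) (D : (ZMod p)[X]),
    n ≠ 0 → h ≠ 0 → D.natDegree ≤ p - 1 → IsD p n h D →
    ({t : ZMod p | D.eval t = 0}.ncard : ℝ) ≤ C * (p : ℝ) ^ ((2 : ℝ) / 3)

/-- PAIR (hALG : StALG) (hBND : StBND), about 200 lines. Intervals.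

`p = 2`: the trivial bound `H ≤ 2 · H · 2^(-1/6)`. `p` odd, `H ≤ p`: `T = {t ∈ (a, a+H] : V_p ≡ t + p v}`, `N = |T|`. The pairs `t < t'`
of `T` have a difference `h ∈ [1, H-1]`, `h < p`, so `h ≠ 0` in `ZMod p`, and for fixed `h` the number of `t` is at most the number of
zeros of `D_h` (ALG), since the `t` are distinct modulo `p`: at most `R = C1 p^(2/3)` (BND). So
`N (N-1)/2 ≤ H R`, `(N-1)^2 ≤ 2 H R`, `N ≤ 1 + (2 C1)^(1/2) H^(1/2) p^(1/3)`. `H > p`: `(a, a+H]` is covered by `⌈H/p⌉ ≤ 2 H/p` intervals of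
length `p`, each contains at most `1 + (2 C1)^(1/2) p^(5/6)`. -/
def StPAIR : Prop :=
  ∃ C : ℝ, 0 < C ∧ ∀ (p : ℕ), p.Prime → ∀ (n v a : ℤ) (H : ℕ), n = 1 ∨ n = -1 → 1 ≤ H →
    ({t : ℤ | a < t ∧ t ≤ a + H ∧ lucV t n p ≡ t + p * v [ZMOD (p : ℤ) ^ 2]}.ncard : ℝ)
      ≤ C * (Real.sqrt H * (p : ℝ) ^ ((1 : ℝ) / 3) + H * (p : ℝ) ^ (-(1 : ℝ) / 6))

end Pool.Agent.Helper93.WP
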