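import Pool.Agent.Helper93.WP.St

/-!
# Project WP: from intervals of traces to real quadratic fields
-/

set_option autoImplicit false

namespace Pool.Agent.Helper93.WP

open Polynomial Pool.Agent.Helper69.WS

theorem hFIN (hTRF : StTRF) (hPAIR : StPAIR) :
    ∃ C : ℝ, 0 < C ∧ ∀ (p : ℕ) (v : ℤ) (x : ℝ), p.Prime → 1 ≤ x →
      ({d | d ∈ Fam x ∧ ∃ t n : ℤ, UTN d t n ∧
        lucV t n p ≡ t + p * v [ZMOD (p : ℤ) ^ 2]}.ncard : ℝ)
        ≤ C * (Real.sqrt x * (p : ℝ) ^ ((1 : ℝ) / 3) + x * (p : ℝ) ^ (-(1 : ℝ) / 6)) := by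
  obtain ⟨C1, hC1, H1⟩ := hTRF
  obtain ⟨C2, hC2, H2⟩ := hPAIR
  refine ⟨C1 + 2 * C2, by positivity, fun p v x hp hx => ?_⟩
  have h1 := (abs_sub_le_iff.1 (H1 x (fun t n => lucV t n p ≡ t + p * v [ZMOD (p : ℤ) ^ 2]) hx)).1
  set X := ⌊x⌋₊ with hX
  have hX1 : 1 ≤ X := Nat.le_floor (by exact_mod_cast hx)
  have hXx : (X : ℝ) ≤ x := Nat.floor_le (by linarith)
  have hp1 : (1 : ℝ) ≤ p := by exact_mod_cast hp.one_lt.le
  have hp0 : (0 : ℝ) < p := by linarith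
  set P := (p : ℝ) ^ ((1 : ℝ) / 3) with hP
  set Q := (p : ℝ) ^ (-(1 : ℝ) / 6) with hQ
  have hP1 : 1 ≤ P := Real.one_le_rpow hp1 (by norm_num)
  have hQ0 : 0 < Q := Real.rpow_pos_of_pos hp0 _
  have hsx : Real.sqrt X ≤ Real.sqrt x := Real.sqrt_le_sqrt hXx
  have hsx0 : 0 ≤ Real.sqrt x := Real.sqrt_nonneg x
  have key : ∀ n : ℤ, (n = 1 ∨ n = -1) →
      (cnt X (fun t => lucV t n p ≡ t + p * v [ZMOD (p : ℤ) ^ 2]) : ℝ)
        ≤ C2 * (Real.sqrt x * P + x * Q) := by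
    intro n hn
    have h2 := H2 p hp n v 0 X hn hX1
    have h3 : {t : ℤ | (0 : ℤ) < t ∧ t ≤ 0 + (X : ℤ) ∧ lucV t n p ≡ t + p * v [ZMOD (p : ℤ) ^ 2]}
        = {t : ℤ | 1 ≤ t ∧ t ≤ (X : ℤ) ∧ lucV t n p ≡ t + p * v [ZMOD (p : ℤ) ^ 2]} := by
      ext t
      simp only [Set.mem_setOf_eq, zero_add]
      constructor
      · rintro ⟨a, b, c⟩; exact ⟨by omega, b, c⟩
      · rintro ⟨a, b, c⟩; exact ⟨by omega, b, c⟩
    rw [h3] at h2
    refine h2.trans ?_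
    have h4 : Real.sqrt X * P + X * Q ≤ Real.sqrt x * P + x * Q := by
      have := mul_le_mul_of_nonneg_right hsx (by linarith : (0 : ℝ) ≤ P)
      have := mul_le_mul_of_nonneg_right hXx hQ0.le
      linarith
    exact mul_le_mul_of_nonneg_left h4 hC2.le
  have k1 := key 1 (Or.inl rfl)
  have k2 := key (-1) (Or.inr rfl)
  have h5 : Real.sqrt x ≤ Real.sqrt x * P + x * Q := by
    have : Real.sqrt x * 1 ≤ Real.sqrt x * P := mul_le_mul_of_nonneg_left hP1 hsx0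
    have : 0 ≤ x * Q := by positivity
    linarith
  have h6 : C1 * Real.sqrt x ≤ C1 * (Real.sqrt x * P + x * Q) :=
    mul_le_mul_of_nonneg_left h5 hC1.le
  have h7 : (C1 + 2 * C2) * (Real.sqrt x * P + x * Q) = C1 * (Real.sqrt x * P + x * Q)
    + C2 * (Real.sqrt x * P + x * Q) + C2 * (Real.sqrt x * P + x * Q) := by ring
  rw [h7]
  linarith

end Pool.Agent.Helper93.WP
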