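import Pool.Agent.Helper93.WP.St

/-!
# Project WP: from intervals of traces to real quadratic fields, with the trivial bound
-/

set_option autoImplicit false

namespace Pool.Agent.Helper93.WP

open Polynomial Pool.Agent.Helper69.WS

theorem cnt_trivial (hCNT : StCNT) (p : ℕ) (hp : p.Prime) (n v : ℤ) (X : ℕ) :
    (cnt X (fun t => lucV t n p ≡ t + p * v [ZMOD (p : ℤ) ^ 2]) : ℝ) ≤ X / p + p := by
  have h := hCNT n {p} 1 0 (fun _ => v) X one_pos (by
    intro q hq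
    rw [Finset.mem_singleton] at hq
    subst hq
    refine ⟨hp, ?_⟩
    intro hd
    have := Nat.le_of_dvd one_pos hd
    nlinarith [hp.two_le])
  have he : (fun t : ℤ => t ≡ 0 [ZMOD ((1 : ℕ) : ℤ)] ∧
      ∀ q ∈ ({p} : Finset ℕ), lucV t n q ≡ t + q * (fun _ : ℕ => v) q [ZMOD (q : ℤ) ^ 2])
      = (fun t => lucV t n p ≡ t + p * v [ZMOD (p : ℤ) ^ 2]) := by
    ext t
    simp [Int.modEq_one]
  rw [he] at h
  have h2 := (abs_sub_le_iff.1 h).1
  simp only [Finset.prod_singleton, Nat.cast_one, one_mul] at h2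
  linarith

theorem hFIN2 (hTRF : StTRF) (hCNT : StCNT) (hPAIR : StPAIR) :
    ∃ C : ℝ, 0 < C ∧ ∀ (p : ℕ) (v : ℤ) (x : ℝ), p.Prime → 1 ≤ x →
      ({d | d ∈ Fam x ∧ ∃ t n : ℤ, UTN d t n ∧
        lucV t n p ≡ t + p * v [ZMOD (p : ℤ) ^ 2]}.ncard : ℝ)
        ≤ C * (Real.sqrt x + x / p + min (p : ℝ)
          (Real.sqrt x * (p : ℝ) ^ ((1 : ℝ) / 3) + x * (p : ℝ) ^ (-(1 : ℝ) / 6))) := by
  obtain ⟨C1, hC1, H1⟩ := hTRF
  obtain ⟨C2, hC2, H2⟩ := hPAIR
  refine ⟨C1 + 2 * C2 + 2, by positivity, fun p v x hp hx => ?_⟩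
  have h1 := (abs_sub_le_iff.1 (H1 x (fun t n => lucV t n p ≡ t + p * v [ZMOD (p : ℤ) ^ 2]) hx)).1
  set X := ⌊x⌋₊ with hX
  have hX1 : 1 ≤ X := Nat.le_floor (by exact_mod_cast hx)
  have hXx : (X : ℝ) ≤ x := Nat.floor_le (by linarith)
  have hp1 : (1 : ℝ) ≤ p := by exact_mod_cast hp.one_lt.le
  have hp0 : (0 : ℝ) < p := by linarith
  set P := (p : ℝ) ^ ((1 : ℝ) / 3) with hP
  set Q := (p : ℝ) ^ (-(1 : ℝ) / 6) with hQ
  have hP1 : 1 ≤ P := Real.one_le_rpow hp1 (by norm_num)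
  have hQ0 : 0 < Q := Real.rpow_pos_of_pos hp0 _
  have hsx : Real.sqrt X ≤ Real.sqrt x := Real.sqrt_le_sqrt hXx
  have hsx0 : 0 ≤ Real.sqrt x := Real.sqrt_nonneg x
  have key : ∀ n : ℤ, (n = 1 ∨ n = -1) →
      (cnt X (fun t => lucV t n p ≡ t + p * v [ZMOD (p : ℤ) ^ 2]) : ℝ)
        ≤ C2 * (Real.sqrt x * P + x * Q) := by
    intro n hn
    have h2 := H2 p hp n v 0 X hn hX1
    have h3 : {t : ℤ | (0 : ℤ) < t ∧ t ≤ 0 + (X : ℤ) ∧ lucV t n p ≡ t + p * v [ZMOD (p : ℤ) ^ 2]}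
        = {t : ℤ | 1 ≤ t ∧ t ≤ (X : ℤ) ∧ lucV t n p ≡ t + p * v [ZMOD (p : ℤ) ^ 2]} := by
      ext t
      simp only [Set.mem_setOf_eq, zero_add]
      constructor
      · rintro ⟨a, b, c⟩; exact ⟨by omega, b, c⟩
      · rintro ⟨a, b, c⟩; exact ⟨by omega, b, c⟩
    rw [h3] at h2
    refine h2.trans ?_
    have h4 : Real.sqrt X * P + X * Q ≤ Real.sqrt x * P + x * Q := by
      have := mul_le_mul_of_nonneg_right hsx (by linarith : (0 : ℝ) ≤ P)
      have := mul_le_mul_of_nonneg_right hXx hQ0.le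
      linarith
    exact mul_le_mul_of_nonneg_left h4 hC2.le
  set S := Real.sqrt x * P + x * Q with hS
  have hS0 : 0 ≤ S := by positivity
  have key2 : ∀ n : ℤ, (n = 1 ∨ n = -1) →
      (cnt X (fun t => lucV t n p ≡ t + p * v [ZMOD (p : ℤ) ^ 2]) : ℝ)
        ≤ (C2 + 1) * (x / p + min (p : ℝ) S) := by
    intro n hn
    have hxp : (X : ℝ) / p ≤ x / p := by gcongr
    have hxp0 : 0 ≤ x / p := by positivity
    rcases le_total (p : ℝ) S with h | h
    · rw [min_eq_left h]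
      have h2 := cnt_trivial hCNT p hp n v X
      have h3 : (C2 + 1) * (x / p + p) = C2 * (x / p + p) + x / p + p := by ring
      have h4 : 0 ≤ C2 * (x / p + p) := by positivity
      linarith
    · rw [min_eq_right h]
      have h2 := key n hn
      have h3 : (C2 + 1) * (x / p + S) = C2 * S + C2 * (x / p) + x / p + S := by ring
      have h4 : 0 ≤ C2 * (x / p) := by positivity
      linarith
  have k1 := key2 1 (Or.inl rfl)
  have k2 := key2 (-1) (Or.inr rfl)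
  have hm0 : 0 ≤ min (p : ℝ) S := le_min hp0.le hS0
  have hxp0 : 0 ≤ x / p := by positivity
  have h7 : (C1 + 2 * C2 + 2) * (Real.sqrt x + x / p + min (p : ℝ) S)
      = C1 * Real.sqrt x + C1 * (x / p + min (p : ℝ) S) + (2 * C2 + 2) * Real.sqrt x
        + (C2 + 1) * (x / p + min (p : ℝ) S) + (C2 + 1) * (x / p + min (p : ℝ) S) := by ring
  have h8 : 0 ≤ C1 * (x / p + min (p : ℝ) S) := by positivity
  have h9 : 0 ≤ (2 * C2 + 2) * Real.sqrt x := by positivity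
  rw [h7]
  linarith

end Pool.Agent.Helper93.WP
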